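import Pool.Agent.H519R3.RS.LUS
import Pool.Agent.R837.FM.Main
import Pool.Agent.R837.FT.Tw4

/-!
MP_3029eb_ag: local uniformization, at all valuations, of the local rings of the quotients of affine
spaces by finite groups of affine transformations with arbitrarily large wild part: the general
linear groups over finite fields, their parabolic subgroups, the groups of unitriangular matrices, the
corresponding affine groups, and their representations by sums of Frobenius twists.

It follows from the resolutions of singularities MP_19ffc6_ag.FiniteAffineGroups and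
MP_19ffc6_ag.TwistedRepresentations of the starting files by the valuative criterion of properness
(`Pool.Agent.H519R3.RS.LUS` of the starting files).
-/

set_option autoImplicit false

open AlgebraicGeometry CategoryTheory MvPolynomial Pool.Agent.H920R2

namespace Pool.Agent.Results.MP_3029eb_ag.FiniteMatrixGroupsLU

/-- Local uniformization of the local ring `R`: for every valuation of the field of fractions `K` of
`R`, with valuation ring `V`, which is centred on `R`, there is a finitely generated `R`-subalgebra
`A` of `K` with `A ⊆ V` whose localization at the centre of the valuation is regular. -/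
def AdmitsLU (R : Type) [CommRing R] [IsLocalRing R] : Prop :=
  ∀ (K : Type) [Field K] [Algebra R K] [IsFractionRing R K] (V : ValuationSubring K),
    (∀ r : R, algebraMap R K r ∈ V) →
    (∀ r : R, r ∈ IsLocalRing.maximalIdeal R ↔ V.valuation (algebraMap R K r) < 1) →
    ∃ A : Subalgebra R K, A.FG ∧ (∀ a : A, (a : K) ∈ V) ∧
      ∃ Q : Ideal A, ∃ (_ : Q.IsPrime), (∀ a : A, a ∈ Q ↔ V.valuation (a : K) < 1) ∧
        IsRegularLocalRing (Localization.AtPrime Q)

/-- `A` is of finite type over `k`, and its localizations at all prime ideals admit local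
uniformization. -/
def AllLocalRingsAdmitLU (k : Type) [Field k] (A : Type) [CommRing A] [Algebra k A] : Prop :=
  Algebra.FiniteType k A ∧ ∀ (Q : Ideal A) [Q.IsPrime] (R : Type) [CommRing R] [IsLocalRing R]
    [Algebra A R] [IsLocalization.AtPrime R Q], AdmitsLU R

section affine

variable {F : Type} [Field F] {k : Type} [Field k] [Algebra F k] {n m : ℕ}

/-- The substitution `x_(i, l) ↦ ∑ j, g_(i, j) * x_(j, l) + v_(i, l)` in the polynomial ring
`k[x_(i, l)]`, `i < n`, `l < m`, the coordinate ring of the space of `n × m`-matrices: the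
substitution `x ↦ g x + v` given by an `n × n`-matrix `g` over `F` and an `n × m`-matrix `v` over
`k`. -/
noncomputable def subst (g : Matrix (Fin n) (Fin n) F) (v : Fin n → Fin m → k) :
    MvPolynomial (Fin n × Fin m) k →ₐ[k] MvPolynomial (Fin n × Fin m) k :=
  aeval fun p => ∑ j, C (algebraMap F k (g p.1 j)) * X (j, p.2) + C (v p.1 p.2)

/-- The matrices `g` with `g_(i, j) = 0` if the level `lv i` is smaller than the level `lv j`
(the block triangular matrices with respect to the levels), and with `g_(i, i) ^ s_i = 1` for all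
`i` which are alone in their level. -/
def IsLevelTriangular (lv s : Fin n → ℕ) (g : Matrix (Fin n) (Fin n) F) : Prop :=
  (∀ i j, lv i < lv j → g i j = 0) ∧ ∀ i, (∀ j, lv j = lv i → j = i) → g i i ^ s i = 1

/-- The algebra of the polynomials which are invariant under all substitutions `x ↦ g x + v` with an
invertible level triangular matrix `g` over `F` and a matrix `v` all of whose rows are in the
`F`-vector space `W ⊆ k ^ m`. -/
noncomputable def affineInvariants (lv s : Fin n → ℕ) (W : Submodule F (Fin m → k)) :
    Subalgebra k (MvPolynomial (Fin n × Fin m) k) where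
  carrier := {f | ∀ g : Matrix.GeneralLinearGroup (Fin n) F,
    IsLevelTriangular lv s (g : Matrix (Fin n) (Fin n) F) → ∀ v : Fin n → Fin m → k,
      (∀ i, v i ∈ W) → subst (g : Matrix (Fin n) (Fin n) F) v f = f}
  mul_mem' := fun {a b} ha hb g hg v hv => by rw [map_mul, ha g hg v hv, hb g hg v hv]
  add_mem' := fun {a b} ha hb g hg v hv => by rw [map_add, ha g hg v hv, hb g hg v hv]
  algebraMap_mem' := fun c g _ v _ => AlgHom.commutes _ c

end affine

section twisted

variable {K : Type} [Field K] {k : Type} [Field k] {n m : ℕ}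

/-- The substitution `x_(i, l) ↦ ∑ j, κ_l (g_(i, j)) * x_(j, l)` in the polynomial ring
`k[x_(i, l)]`, `i < n`, `l < m`, for an `n × n`-matrix `g` over `K` and embeddings `κ_l` of `K`
into `k`, `l < m`: the matrix `κ_l (g)` acts on the `l`-th column. -/
noncomputable def twistedSubst (κ : Fin m → (K →+* k)) (g : Matrix (Fin n) (Fin n) K) :
    MvPolynomial (Fin n × Fin m) k →ₐ[k] MvPolynomial (Fin n × Fin m) k :=
  aeval fun p => ∑ j, C (κ p.2 (g p.1 j)) * X (j, p.2)

/-- The matrices `g` over `K` with `g_(i, j) = 0` if the level `lv i` is smaller than the level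
`lv j` (the block triangular matrices with respect to the levels), and `g_(i, j)` in the subfield
`E (lv j)` of `K` otherwise. -/
def IsTowerMatrix (E : ℕ → Subfield K) (lv : Fin n → ℕ) (g : Matrix (Fin n) (Fin n) K) : Prop :=
  (∀ i j, lv i < lv j → g i j = 0) ∧ ∀ i j, g i j ∈ E (lv j)

/-- The algebra of the polynomials which are invariant under all invertible matrices of the given
shape. -/
noncomputable def twistedInvariants (κ : Fin m → (K →+* k)) (E : ℕ → Subfield K)
    (lv : Fin n → ℕ) : Subalgebra k (MvPolynomial (Fin n × Fin m) k) where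
  carrier := {f | ∀ g : Matrix.GeneralLinearGroup (Fin n) K,
    IsTowerMatrix E lv (g : Matrix (Fin n) (Fin n) K) →
      twistedSubst κ (g : Matrix (Fin n) (Fin n) K) f = f}
  mul_mem' := fun {a b} ha hb g hg => by rw [map_mul, ha g hg, hb g hg]
  add_mem' := fun {a b} ha hb g hg => by rw [map_add, ha g hg, hb g hg]
  algebraMap_mem' := fun c g _ => AlgHom.commutes _ c

end twisted

theorem comp_id_of {k B : Type} [Field k] [CommRing B] [Algebra k B] (f h h' : B →ₐ[k] B)
    (h1 : f.comp h = AlgHom.id k B) (h2 : h.comp h' = AlgHom.id k B) :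
    h.comp f = AlgHom.id k B := by
  have h3 : f = h' := by
    apply AlgHom.ext
    intro x
    have e1 : f (h (h' x)) = h' x := congrArg (fun t => t (h' x)) h1
    have e2 : h (h' x) = x := congrArg (fun t => t x) h2
    rw [e2] at e1
    exact e1
  rw [h3]
  exact h2

theorem aff_comp_inv {k : Type} [Field k] {n m : ℕ} {F : Type} [Field F] [Fintype F]
    [Algebra F k] (g : Matrix.GeneralLinearGroup (Fin n) F) (v : Fin n → Fin m → k) :
    ∃ h : MvPolynomial (Fin n × Fin m) k →ₐ[k] MvPolynomial (Fin n × Fin m) k,
      (Pool.Agent.R837.FM.aff (g : Matrix (Fin n) (Fin n) F) v).comp h = AlgHom.id k _ ∧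
      h.comp (Pool.Agent.R837.FM.aff (g : Matrix (Fin n) (Fin n) F) v) = AlgHom.id k _ :=
  ⟨_, Pool.Agent.R837.FM.aff_inv g v, comp_id_of _ _ _ (Pool.Agent.R837.FM.aff_inv g v)
    (Pool.Agent.R837.FM.aff_inv g⁻¹ _)⟩

theorem mem_affGrp {k : Type} [Field k] {n m : ℕ} {lv : Fin n → ℕ} {F : Type} [Field F] [Fintype F]
    [Algebra F k] {s : Fin n → ℕ} {W : Submodule F (Fin m → k)}
    {σ : MvPolynomial (Fin n × Fin m) k ≃ₐ[k] MvPolynomial (Fin n × Fin m) k} :
    σ ∈ Pool.Agent.R837.FM.affGrp (n := n) lv s W ↔
      ∃ g ∈ Pool.Agent.R837.FM.par F lv s, ∃ v : Fin n → Fin m → k, (∀ i, v i ∈ W) ∧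
        (σ : MvPolynomial (Fin n × Fin m) k →ₐ[k] MvPolynomial (Fin n × Fin m) k) =
          Pool.Agent.R837.FM.aff (g : Matrix (Fin n) (Fin n) F) v := Iff.rfl

theorem affine_eq (k : Type) [Field k] (n m : ℕ) (lv : Fin n → ℕ) (F : Type) [Field F] [Fintype F]
    [Algebra F k] (s : Fin n → ℕ) (W : Submodule F (Fin m → k)) :
    Pool.Agent.R837.FM.inva (Pool.Agent.R837.FM.affGrp (n := n) lv s W) =
      affineInvariants lv s W := by
  apply le_antisymm
  · intro f hf g hg v hv
    obtain ⟨h, h1, h2⟩ := aff_comp_inv (m := m) g v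
    have h3 : AlgEquiv.ofAlgHom _ _ h1 h2 ∈ Pool.Agent.R837.FM.affGrp (n := n) lv s W :=
      mem_affGrp.2 ⟨g, Pool.Agent.R837.FM.mem_par.2 hg, v, hv, AlgHom.ext fun _ => rfl⟩
    have h4 : AlgEquiv.ofAlgHom _ _ h1 h2 f = f := hf _ h3
    exact h4
  · intro f hf σ hσ
    obtain ⟨g, hg, v, hv, h1⟩ := mem_affGrp.1 hσ
    have h2 : Pool.Agent.R837.FM.aff (g : Matrix (Fin n) (Fin n) F) v f = f := hf g hg v hv
    rw [← h1] at h2
    exact h2

theorem affine_res (k : Type) [Field k] (n m : ℕ) (hm : 0 < m) (lv : Fin n → ℕ) (F : Type) [Field F]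
    [Fintype F] [Algebra F k] (s : Fin n → ℕ) (hs : ∀ i, s i ∣ Fintype.card F - 1)
    (W : Submodule F (Fin m → k)) [Finite W] :
    Algebra.FiniteType k (affineInvariants (n := n) lv s W) ∧
    HasResolution (X := Spec (CommRingCat.of (affineInvariants (n := n) lv s W)))
      (Spec.map (CommRingCat.ofHom (algebraMap k (affineInvariants (n := n) lv s W)))) := by
  rw [← affine_eq k n m lv F s W]
  exact ⟨Pool.Agent.R837.FM.finiteType_inva _, Pool.Agent.R837.FM.main hm lv s hs W⟩

theorem twisted_eq (k : Type) [Field k] (n m : ℕ) (lv : Fin n → ℕ) (K : Type) [Field K]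
    [Finite K] (κ : Fin m → (K →+* k)) (E : ℕ → Subfield K) (hE : Antitone E) :
    Pool.Agent.R837.FT.AT κ hE lv = twistedInvariants κ E lv := by
  apply le_antisymm
  · exact fun f hf g hg => hf g fun i j => ⟨hg.1 i j, hg.2 i j⟩
  · exact fun f hf g hg => hf g ⟨fun i j => (hg i j).1, fun i j => (hg i j).2⟩

theorem twisted_res (k : Type) [Field k] (n m : ℕ) (hm : 0 < m) (lv : Fin n → ℕ) (K : Type) [Field K]
    [Finite K] (κ : Fin m → (K →+* k)) (E : ℕ → Subfield K) (hE : Antitone E) :
    Algebra.FiniteType k (twistedInvariants κ E lv) ∧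
    HasResolution (X := Spec (CommRingCat.of (twistedInvariants κ E lv)))
      (Spec.map (CommRingCat.ofHom (algebraMap k (twistedInvariants κ E lv)))) := by
  obtain ⟨p, hchK⟩ := CharP.exists K
  have hp : Fact p.Prime := ⟨CharP.char_is_prime K p⟩
  have hch : CharP k p := charP_of_injective_ringHom (κ ⟨0, hm⟩).injective p
  let _ : Algebra (ZMod p) K := ZMod.algebra K p
  let _ : Algebra (ZMod p) k := ZMod.algebra k p
  have hκ : ∀ l (c : ZMod p), κ l (algebraMap (ZMod p) K c) = algebraMap (ZMod p) k c := by
    intro l c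
    exact congrArg (fun f : ZMod p →+* k => f c)
      (Subsingleton.elim ((κ l).comp (algebraMap (ZMod p) K)) (algebraMap (ZMod p) k))
  have hEF : ∀ a (c : ZMod p), algebraMap (ZMod p) K c ∈ E a := by
    intro a c
    obtain ⟨z, rfl⟩ := ZMod.intCast_surjective c
    rw [map_intCast]
    exact intCast_mem (E a) z
  rw [← twisted_eq k n m lv K κ E hE]
  exact ⟨Pool.Agent.R837.FT.finiteType_AT κ hE lv,
    Pool.Agent.R837.FT.main_T (F := ZMod p) κ hκ hm hE hEF lv⟩

theorem lu_of_res {k A : Type} [Field k] [CommRing A] [IsDomain A] [Algebra k A]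
    (h : Algebra.FiniteType k A ∧ HasResolution (X := Spec (CommRingCat.of A))
      (Spec.map (CommRingCat.ofHom (algebraMap k A)))) : AllLocalRingsAdmitLU k A :=
  ⟨h.1, fun Q _ R _ _ _ _ => Pool.Agent.H519R3.RS.admitsLU_of_res h.2 Q R⟩

/-- (1) Let `F` be a finite field with `q` elements, `k` a field which contains `F`, `m > 0`,
`lv i`, `i < n`, levels, `s i` divisors of `q - 1` and `W` a finite `F`-subspace of `k ^ m`. Let `Γ` be
the finite group of the transformations `x ↦ g x + v` of the space of `n × m`-matrices over `k`, where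
`g` is an invertible matrix over `F` which is block triangular with respect to the levels, with
`g_(i, i) ^ s_i = 1` for all `i` which are alone in their level, and where all rows of `v` are in `W`.
Then the ring of the `Γ`-invariant functions is of finite type over `k`, and its localizations at all
prime ideals admit local uniformization.

(2) Let `K` be a finite field, `k` a field, `m > 0`, and `κ_l : K → k`, `l < m`, arbitrary
embeddings (they differ by powers of the Frobenius automorphism). Let
`K ⊇ E_0 ⊇ E_1 ⊇ E_2 ⊇ ...` be subfields and `lv i`, `i < n`, levels. Let `G` be the finite group of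
the invertible `n × n`-matrices `g` over `K` with `g_(i, j) = 0` for `lv i < lv j` and
`g_(i, j) ∈ E_(lv j)` for all `i`, `j`; it acts on the affine space of the `n × m`-matrices over `k`
so that `g` acts on the `l`-th column through `κ_l (g)`. Then the ring of the `G`-invariant functions
is of finite type over `k`, and its localizations at all prime ideals admit local uniformization. -/
theorem result (k : Type) [Field k] (n m : ℕ) (hm : 0 < m) (lv : Fin n → ℕ) :
    (∀ (F : Type) [Field F] [Fintype F] [Algebra F k] (s : Fin n → ℕ),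
      (∀ i, s i ∣ Fintype.card F - 1) → ∀ (W : Submodule F (Fin m → k)) [Finite W],
      AllLocalRingsAdmitLU k (affineInvariants (n := n) lv s W)) ∧
    (∀ (K : Type) [Field K] [Finite K] (κ : Fin m → (K →+* k)) (E : ℕ → Subfield K),
      Antitone E → AllLocalRingsAdmitLU k (twistedInvariants κ E lv)) :=
  ⟨fun F _ _ _ s hs W _ => lu_of_res (affine_res k n m hm lv F s hs W),
    fun K _ _ κ E hE => lu_of_res (twisted_res k n m hm lv K κ E hE)⟩

end Pool.Agent.Results.MP_3029eb_ag.FiniteMatrixGroupsLU
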