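import Pool.Agent.J6H83.Nr.Top
import Pool.Agent.J6H83.Nr.Grp
import Pool.Agent.H519R3.RS.LUS

/-!
MP_3029eb_ag: local uniformization, at all valuations and in all dimensions, of the local rings of
the quotients of the cones over the smooth subvarieties of the Grassmannians by the inverse images
of finite groups of block triangular matrices under the powers of the Frobenius of `GL_n`: finite
group schemes, wild and nonreduced, extensions of arbitrary groups of this kind by Frobenius
kernels; for example `GL_n (F)`, its parabolic subgroups, the groups of unitriangular matrices over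
a finite field `F`, and the Frobenius kernels of `GL_n`.

It follows from the resolution of singularities of these varieties (`Pool.Agent.J6H83.Nr`, helper83,
on the stage theorem `Pool.Agent.R837.FM` of the starting files) by the valuative criterion of
properness (`Pool.Agent.H519R3.RS.LUS` of the starting files).
-/

set_option autoImplicit false

open AlgebraicGeometry CategoryTheory MvPolynomial Pool.Agent.H920R2

namespace Pool.Agent.Results.MP_3029eb_ag.NonreducedGroupQuotientsLU

/-- Local uniformization of the local ring `R`: for every valuation of the field of fractions `K` of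
`R`, with valuation ring `V`, which is centred on `R`, there is a finitely generated `R`-subalgebra
`A` of `K` with `A ⊆ V` whose localization at the centre of the valuation is regular. -/
def AdmitsLU (R : Type) [CommRing R] [IsLocalRing R] : Prop :=
  ∀ (K : Type) [Field K] [Algebra R K] [IsFractionRing R K] (V : ValuationSubring K),
    (∀ r : R, algebraMap R K r ∈ V) →
    (∀ r : R, r ∈ IsLocalRing.maximalIdeal R ↔ V.valuation (algebraMap R K r) < 1) →
    ∃ A : Subalgebra R K, A.FG ∧ (∀ a : A, (a : K) ∈ V) ∧
      ∃ Q : Ideal A, ∃ (_ : Q.IsPrime), (∀ a : A, a ∈ Q ↔ V.valuation (a : K) < 1) ∧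
        IsRegularLocalRing (Localization.AtPrime Q)

section grassmannian

variable (k : Type) [Field k] {E : Type} [Field E] [Algebra k E] {ρ m : ℕ}
  (w : Matrix (Fin ρ) (Fin m) E)

/-- The coordinate ring of a standard chart of the closure `Y` of the point of the Grassmannian of
the subspaces of dimension `ρ` of `k ^ m` given by the row space of `w`: the subalgebra of `E`
generated by the entries of the matrix `w_e⁻¹ w`, where `w_e` is the submatrix of `w` with the
columns `e 1, ..., e ρ` (with nonzero determinant). -/
noncomputable def chartRing (e : Fin ρ → Fin m) : Subalgebra k E :=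
  Algebra.adjoin k (Set.range fun u : Fin ρ × Fin m => ((w.submatrix id e)⁻¹ * w) u.1 u.2)

/-- The rows of `w` span the generic subspace of a smooth closed subvariety `Y` of the
Grassmannian with the function field `E`. -/
def IsGenericPoint : Prop :=
  (∃ e : Fin ρ → Fin m, (w.submatrix id e).det ≠ 0) ∧
  ∀ e : Fin ρ → Fin m, (w.submatrix id e).det ≠ 0 →
    IntermediateField.adjoin k (chartRing k w e : Set E) = ⊤ ∧ Algebra.Smooth k (chartRing k w e)

/-- The matrix `t w` for the generic `n × ρ`-matrix `t`. -/
noncomputable def genericMatrix (n : ℕ) {E : Type} [Field E] {ρ m : ℕ}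
    (w : Matrix (Fin ρ) (Fin m) E) :
    Matrix (Fin n) (Fin m) (MvPolynomial (Fin n × Fin ρ) E) :=
  Matrix.of fun i j => ∑ l, X (i, l) * C (w l j)

/-- The value of a polynomial in the entries of an `n × m`-matrix at a matrix `x`. -/
noncomputable def value {k : Type} [Field k] {n m : ℕ} {R : Type} [CommRing R] [Algebra k R]
    (x : Matrix (Fin n) (Fin m) R) : MvPolynomial (Fin n × Fin m) k →ₐ[k] R :=
  aeval fun u => x u.1 u.2

/-- The ideal of the cone `X` of the `n × m`-matrices whose row spaces are contained in a member of
`Y`: the polynomials which vanish at `t w`. -/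
noncomputable def coneIdeal (n : ℕ) : Ideal (MvPolynomial (Fin n × Fin m) k) :=
  RingHom.ker (value (k := k) (genericMatrix n w))

/-- The coordinate ring of the cone `X`. -/
abbrev coordinateRing (n : ℕ) : Type := MvPolynomial (Fin n × Fin m) k ⧸ coneIdeal k w n

end grassmannian

/-- The matrices `g` with `g_(i, j) = 0` if the level `lv i` is smaller than the level `lv j`
(the block triangular matrices with respect to the levels), and with `g_(i, i) ^ s_i = 1` for all
`i` which are alone in their level. -/
def IsLevelTriangular {F : Type} [Field F] {n : ℕ} (lv s : Fin n → ℕ)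
    (g : Matrix (Fin n) (Fin n) F) : Prop :=
  (∀ i j, lv i < lv j → g i j = 0) ∧ ∀ i, (∀ j, lv j = lv i → j = i) → g i i ^ s i = 1

/-- The `R`-valued points (if `Spec R` is connected) of the finite group scheme `G`, the inverse
image of the constant group `Γ` of the invertible level triangular matrices over `F` under the
`r`-th power of the Frobenius `g ↦ (g_(i, j) ^ p)` of `GL_n`. -/
def IsPoint (F : Type) [Field F] (k : Type) [Field k] [Algebra F k] (p r : ℕ) {n : ℕ}
    (lv s : Fin n → ℕ) {R : Type} [CommRing R] [Algebra k R]
    (g : Matrix (Fin n) (Fin n) R) : Prop :=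
  ∃ γ : Matrix.GeneralLinearGroup (Fin n) F,
    IsLevelTriangular lv s (γ : Matrix (Fin n) (Fin n) F) ∧
    ∀ i j, g i j ^ (p ^ r) = algebraMap k R (algebraMap F k ((γ : Matrix (Fin n) (Fin n) F) i j))

section invariants

variable (F : Type) [Field F] [Fintype F] (k : Type) [Field k] [Algebra F k]
  {E : Type} [Field E] [Algebra k E] {n ρ m : ℕ} (p r : ℕ) (w : Matrix (Fin ρ) (Fin m) E)
  (lv s : Fin n → ℕ)

/-- The polynomials whose restrictions to the cone `X` are invariant under `G`: those `f` with
`f (g x) = f x` for all points `x` of the cone and all points `g` of `G` with values in any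
`k`-algebra. -/
noncomputable def invariantPolynomials : Subalgebra k (MvPolynomial (Fin n × Fin m) k) where
  carrier := {f | ∀ (R : Type) [CommRing R] [Algebra k R] (x : Matrix (Fin n) (Fin m) R)
    (g : Matrix (Fin n) (Fin n) R), (∀ h ∈ coneIdeal k w n, value x h = 0) →
      IsPoint F k p r lv s g → value (g * x) f = value x f}
  mul_mem' := by
    intro a b ha hb R _ _ x g hx hg
    rw [map_mul, map_mul, ha R x g hx hg, hb R x g hx hg]
  add_mem' := by
    intro a b ha hb R _ _ x g hx hg
    rw [map_add, map_add, ha R x g hx hg, hb R x g hx hg]
  algebraMap_mem' := by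
    intro a R _ _ x g _ _
    rw [AlgHom.commutes, AlgHom.commutes]

/-- The algebra of the functions on the cone `X` which are invariant under `G`: the coordinate ring
of the quotient `X / G`. -/
noncomputable def invariants : Subalgebra k (coordinateRing k w n) :=
  (invariantPolynomials F k p r w lv s).map (Ideal.Quotient.mkₐ k (coneIdeal k w n))

end invariants

/-- Let `F` be a finite field with `q` elements, `k` a field of characteristic `p` which contains
`F`, `0 < ρ ≤ n`, and let `Y` be a smooth closed subvariety of the Grassmannian of the subspaces
of dimension `ρ` of `k ^ m`, with the function field `E` and the generic subspace spanned by the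
rows of a matrix `w` over `E`. Let `X` be the closed subvariety of the space of the
`n × m`-matrices of the matrices whose row spaces are contained in a member of `Y`. Let `lv i`,
`i < n`, be levels, `s i` divisors of `q - 1`, and let `Γ` be the group of the invertible
`n × n`-matrices `g` over `F` which are block triangular with respect to the levels, with
`g_(i, i) ^ s_i = 1` for all `i` which are alone in their level. Let `r ≥ 0` and let `G` be the
finite group scheme of the matrices `g` with `(g_(i, j) ^ (p ^ r)) ∈ Γ`, an extension of `Γ` by the
`r`-th Frobenius kernel of `GL_n`. Then the coordinate ring of the quotient of `X` by the action of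
`G` by left multiplication is a domain of finite type over `k`, and its localizations `R` at all
prime ideals `Q` admit local uniformization. -/
theorem result (p r : ℕ) [Fact p.Prime] (F : Type) [Field F] [Fintype F]
    (k : Type) [Field k] [CharP k p] [Algebra F k] (E : Type) [Field E] [Algebra k E]
    (n m ρ : ℕ) (hρ : 0 < ρ) (hn : ρ ≤ n) (w : Matrix (Fin ρ) (Fin m) E)
    (hw : IsGenericPoint k w) (lv s : Fin n → ℕ) (hs : ∀ i, s i ∣ Fintype.card F - 1) :
    (∀ (R : Type) [CommRing R] [Algebra k R],
      ∃ G : Subgroup (Matrix.GeneralLinearGroup (Fin n) R), ∀ g : Matrix (Fin n) (Fin n) R,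
        IsPoint F k p r lv s g ↔ ∃ a ∈ G, (a : Matrix (Fin n) (Fin n) R) = g) ∧
    IsDomain (invariants F k p r w lv s) ∧
    Algebra.FiniteType k (invariants F k p r w lv s) ∧
    ∀ (Q : Ideal (invariants F k p r w lv s)) [Q.IsPrime] (R : Type) [CommRing R] [IsLocalRing R]
      [Algebra (invariants F k p r w lv s) R] [IsLocalization.AtPrime R Q], AdmitsLU R := by
  let _ : Algebra F E := ((algebraMap k E).comp (algebraMap F k)).toAlgebra
  have _ : IsScalarTower F k E := IsScalarTower.of_algebraMap_eq fun _ => rfl
  have hcE : CharP E p := charP_of_injective_algebraMap (algebraMap k E).injective p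
  have h0 : IsDomain (invariants F k p r w lv s) :=
    Pool.Agent.J6H83.Nr.isDomain_AA (F := F) (k := k) (n := n) (w := w) (p ^ r) lv s
  have h1 : Algebra.FiniteType k (Pool.Agent.J6H83.Nr.AA F k n w (p ^ r) lv s) :=
    Pool.Agent.J6H83.Nr.finiteType_AA lv s
  refine ⟨fun R _ _ => Pool.Agent.J6H83.Nr.exists_grp (F := F) k p r R lv s, h0, h1, ?_⟩
  intro Q _ R _ _ _ _
  have h3 : HasResolution (X := Spec (CommRingCat.of (invariants F k p r w lv s)))
      (Spec.map (CommRingCat.ofHom (algebraMap k (invariants F k p r w lv s)))) :=
    Pool.Agent.J6H83.Nr.main hρ hn hw.1 (fun e he => (hw.2 e he).1)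
      (fun e he => (hw.2 e he).2) lv s hs
  exact Pool.Agent.H519R3.RS.admitsLU_of_res h3 Q R

end Pool.Agent.Results.MP_3029eb_ag.NonreducedGroupQuotientsLU
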