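import Pool.Agent.J6H48.MG.Ex2
import Pool.Agent.H519R3.RS.LUS

/-!
MP_3029eb_ag: local uniformization, at all valuations and in all dimensions, of the local rings of
the quotients of smooth varieties, and of affine spaces by translations along polynomial maps, by
finite subgroup schemes of vector groups of any rank and by their semidirect products with finite
diagonalizable group schemes. These quotients have a resolution of singularities (proved in
`Pool.Agent.J6H48.MG`); local uniformization follows by the valuative criterion of properness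
(`Pool.Agent.H519R3.RS.LUS` of the starting files).
-/

set_option autoImplicit false

open AlgebraicGeometry CategoryTheory MvPolynomial Pool.Agent.H920R2

universe u

namespace Pool.Agent.Results.MP_3029eb_ag.VectorGroupQuotientsLU

section

variable {k B : Type u} [Field k] [CommRing B] [Algebra k B] {Λ : Type} [AddCommGroup Λ] {r : ℕ}

/-- `ρ : B → B[T_1, ..., T_r]` is the coaction of an action of the vector group `𝔾_a ^ r` on
`Spec B`: the point `0` acts trivially and `T + T'` acts as the composition of `T` and `T'`. -/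
structure IsVectorAction (ρ : B →ₐ[k] MvPolynomial (Fin r) B) : Prop where
  counit : ∀ b, coeff 0 (ρ b) = b
  coassoc : (MvPolynomial.mapAlgHom ρ).comp ρ = ((aeval (R := B) (fun j => (X j + C (X j) :
    MvPolynomial (Fin r) (MvPolynomial (Fin r) B)))).restrictScalars k).comp ρ

/-- The diagonalizable group scheme `D = Spec k[Λ]` acts on `Spec B` through a `Λ`-grading of `B`
and on `𝔾_a ^ r` through the characters `β j`; the action `ρ` of `𝔾_a ^ r` is equivariant, so that
the semidirect product `𝔾_a ^ r ⋊ D` acts on `Spec B`. -/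
def IsEquivariant (𝒜 : Λ → Submodule k B) (β : Fin r → Λ) (ρ : B →ₐ[k] MvPolynomial (Fin r) B) :
    Prop :=
  ∀ i, ∀ b ∈ 𝒜 i, ∀ α : Fin r →₀ ℕ, coeff α (ρ b) ∈ 𝒜 (i + ∑ j, α j • β j)

/-- The finite subgroup `A` of `k ^ r = 𝔾_a ^ r (k)` is stable under `D = Spec k[Λ]`, acting on
`𝔾_a ^ r` through the characters `β j`: the ideal of `A` in `k[T_1, ..., T_r]` is homogeneous for
the `Λ`-grading in which `T_j` has the degree `β j`. -/
def IsStable (A : AddSubgroup (Fin r → k)) (β : Fin r → Λ) : Prop :=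
  ∀ f : MvPolynomial (Fin r) k, (∀ a ∈ A, eval a f = 0) → ∀ c : Λ, ∀ a ∈ A,
    eval a (weightedHomogeneousComponent β c f) = 0

/-- `R` is the ring of invariants of the semidirect product of the finite subgroup scheme
`H = (∏ j, α_(q j)) × A` of `𝔾_a ^ r` and the diagonalizable group scheme `D = Spec k[Λ]`, where `A`
is a finite subgroup of `k ^ r` and `α_q` is the kernel of `t ↦ t ^ q` (`q` a power of `p`): `b` is
in `R` if and only if `b` has degree `0`, `ρ b` is congruent to `b` modulo the `T_j ^ (q j)`, and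
`a` fixes `b` for all `a` in `A`. -/
def IsInvariantRing (𝒜 : Λ → Submodule k B) (ρ : B →ₐ[k] MvPolynomial (Fin r) B)
    (q : Fin r → ℕ) (A : AddSubgroup (Fin r → k)) (R : Subalgebra k B) : Prop :=
  ∀ b, b ∈ R ↔ b ∈ 𝒜 0 ∧
    ρ b - C b ∈ Ideal.span (Set.range fun j : Fin r => (X j : MvPolynomial (Fin r) B) ^ q j) ∧
    ∀ a ∈ A, eval (fun j => algebraMap k B (a j)) (ρ b) = b

/-- The elements `Δ J` of weight `e J` for the filtration `F` have no common zero on the weighted
blowup of `F`, and where `Δ J` is invertible the action of `𝔾_a ^ r` is a translation of the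
functions `θ J j / Δ J`, of weight `- l j`, by `T_j`. -/
structure IsLocallyTranslation (ρ : B →ₐ[k] MvPolynomial (Fin r) B) (F : ℕ → Ideal B)
    (l : Fin r → ℕ) {ι : Type u} (Δ : ι → B) (e : ι → ℕ) (θ : ι → Fin r → B) : Prop where
  memΔ : ∀ J, Δ J ∈ F (e J)
  memθ : ∀ J j, θ J j ∈ F (e J - l j)
  le : ∀ J j, l j ≤ e J
  map : ∀ J j, ρ (θ J j) = C (θ J j) + C (Δ J) * X j
  gen : ∀ d, 1 ≤ d → ∀ b ∈ F d, ∃ N : ℕ, b ^ N ∈
    Ideal.span {y | ∃ J, ∃ a ∈ F (N * d - e J), y = a * Δ J}

end

/-- `Spec R` is a variety over `k` which has a resolution of singularities. -/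
def ResolvedVariety (k R : Type u) [Field k] [CommRing R] [Algebra k R] : Prop :=
  IsVariety (X := Spec (CommRingCat.of R)) (Spec.map (CommRingCat.ofHom (algebraMap k R))) ∧
    ∃ (Y : Scheme.{u}) (π : Y ⟶ Spec (CommRingCat.of R)),
      AlgebraicGeometry.IsIntegral Y ∧ AlgebraicGeometry.IsProper π ∧
      AlgebraicGeometry.Smooth (π ≫ Spec.map (CommRingCat.ofHom (algebraMap k R))) ∧
      ∃ U : (Spec (CommRingCat.of R)).Opens, Dense (U : Set (Spec (CommRingCat.of R))) ∧
        IsIso (π ∣_ U)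

/-- Local uniformization of the local ring `R`: for every valuation of the field of fractions `K` of
`R`, with valuation ring `V`, which is centred on `R`, there is a finitely generated `R`-subalgebra
`A` of `K` with `A ⊆ V` whose localization at the centre of the valuation is regular. -/
def AdmitsLU (R : Type) [CommRing R] [IsLocalRing R] : Prop :=
  ∀ (K : Type) [Field K] [Algebra R K] [IsFractionRing R K] (V : ValuationSubring K),
    (∀ r : R, algebraMap R K r ∈ V) →
    (∀ r : R, r ∈ IsLocalRing.maximalIdeal R ↔ V.valuation (algebraMap R K r) < 1) →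
    ∃ A : Subalgebra R K, A.FG ∧ (∀ a : A, (a : K) ∈ V) ∧
      ∃ Q : Ideal A, ∃ (_ : Q.IsPrime), (∀ a : A, a ∈ Q ↔ V.valuation (a : K) < 1) ∧
        IsRegularLocalRing (Localization.AtPrime Q)

/-- All local rings of `Spec A` admit local uniformization. -/
def LocalRingsAdmitLU (A : Type) [CommRing A] : Prop :=
  ∀ (Q : Ideal A) [Q.IsPrime] (S : Type) [CommRing S] [IsLocalRing S] [Algebra A S]
    [IsLocalization.AtPrime S Q], AdmitsLU S

/-- The coaction `Y t ↦ Y t + ∑ j, v j t * T_j` of the action of `𝔾_a ^ r` on the affine space with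
the coordinates `X i`, `Y t`, by translations along the polynomial maps `v j : 𝔸 ^ n → 𝔸 ^ m`. -/
noncomputable def translation {k : Type u} [Field k] {n m r : ℕ}
    (v : Fin r → Fin m → MvPolynomial (Fin n) k) :
    MvPolynomial (Fin n ⊕ Fin m) k →ₐ[k] MvPolynomial (Fin r) (MvPolynomial (Fin n ⊕ Fin m) k) :=
  aeval (Sum.elim (fun i => C (X (Sum.inl i)))
    fun t => C (X (Sum.inr t)) + ∑ j, C (rename Sum.inl (v j t)) * X j)

/-- The coefficients of the products `u ^ j * x` of the polynomial `x = ∑ i, X i * u ^ i` of degree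
at most `n` with the powers of the variable `u`. -/
noncomputable def mulVec (k : Type u) [Field k] (n r : ℕ) (j : Fin r) (t : Fin (n + r)) :
    MvPolynomial (Fin (n + 1)) k :=
  if h : (j : ℕ) ≤ t ∧ (t : ℕ) - j < n + 1 then X ⟨(t : ℕ) - j, h.2⟩ else 0

section

variable {k B : Type u} [Field k] [CommRing B] [Algebra k B] {Λ : Type} [AddCommGroup Λ]
  {r : ℕ}

lemma isVAct {ρ : B →ₐ[k] MvPolynomial (Fin r) B} (h : IsVectorAction ρ) :
    Pool.Agent.J6H48.MG.IsVAct ρ := Pool.Agent.J6H48.MG.isVAct_of ρ h.counit h.coassoc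

lemma isVectorAction {ρ : B →ₐ[k] MvPolynomial (Fin r) B} (h : Pool.Agent.J6H48.MG.IsVAct ρ) :
    IsVectorAction ρ where
  counit := h.zero
  coassoc := by
    apply AlgHom.ext
    intro b
    exact Pool.Agent.J6H48.MG.coassoc h b

lemma mem_iff {p : ℕ} [Fact p.Prime] [CharP k p] {𝒜 : Λ → Submodule k B}
    {ρ : B →ₐ[k] MvPolynomial (Fin r) B} (hρ : Pool.Agent.J6H48.MG.IsVAct ρ) {h : Fin r → ℕ}
    {A : AddSubgroup (Fin r → k)}
    {R : Subalgebra k B} (hR : IsInvariantRing 𝒜 ρ (fun j => p ^ h j) A R) (b : B) :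
    b ∈ R ↔ b ∈ Pool.Agent.J6H48.MG.CH ρ p h ⊓ Pool.Agent.J6H48.MG.ivv ρ A ∧ b ∈ 𝒜 0 := by
  rw [hR b, and_comm]
  refine and_congr ?_ Iff.rfl
  rw [Algebra.mem_inf, Pool.Agent.J6H48.MG.mem_CH_iff hρ]
  refine and_congr Iff.rfl ?_
  refine forall₂_congr fun a _ => ?_
  rw [Pool.Agent.J6H48.MG.sv_apply]

lemma exists_ring [Fintype Λ] [DecidableEq Λ] {p : ℕ} [Fact p.Prime] [CharP k p]
    (𝒜 : Λ → Submodule k B) [GradedAlgebra 𝒜]
    {ρ : B →ₐ[k] MvPolynomial (Fin r) B} (hρ : Pool.Agent.J6H48.MG.IsVAct ρ) (h : Fin r → ℕ)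
    (A : AddSubgroup (Fin r → k)) :
    ∃ R : Subalgebra k B, IsInvariantRing 𝒜 ρ (fun j => p ^ h j) A R := by
  refine ⟨Pool.Agent.J6H48.MG.CH ρ p h ⊓ Pool.Agent.J6H48.MG.ivv ρ A ⊓
    Pool.Agent.Y177.Dg.zr (Pool.Agent.Y177.Dg.pg_grd 𝒜), fun b => ?_⟩
  rw [Algebra.mem_inf, and_comm]
  refine and_congr ?_ ?_
  · rw [Pool.Agent.Y177.Dg.mem_zr, Pool.Agent.Y177.Dg.proj_eq_iff]
  · rw [Algebra.mem_inf, Pool.Agent.J6H48.MG.mem_CH_iff hρ]
    refine and_congr Iff.rfl (forall₂_congr fun a _ => ?_)
    rw [Pool.Agent.J6H48.MG.sv_apply]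

end

section mul

variable {k : Type u} [Field k] {n r : ℕ}

lemma mulVec_indep (K : Type u) [Field K] [Algebra k K] (z : Fin (n + 1) → K)
    (hz : ∃ i, z i ≠ 0) : LinearIndependent K (fun (j : Fin r) t => aeval z (mulVec k n r j t)) := by
  classical
  rw [Fintype.linearIndependent_iff]
  intro g hg
  let P : Polynomial K := ∑ j : Fin r, Polynomial.C (g j) * Polynomial.X ^ (j : ℕ)
  let Z : Polynomial K := ∑ i : Fin (n + 1), Polynomial.C (z i) * Polynomial.X ^ (i : ℕ)
  have hPZ : P * Z = 0 := by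
    ext t
    have h1 : (P * Z).coeff t = ∑ j : Fin r, ∑ i : Fin (n + 1),
        if t = (j : ℕ) + i then g j * z i else 0 := by
      simp only [P, Z]
      rw [Finset.sum_mul_sum, Polynomial.finsetSum_coeff]
      refine Finset.sum_congr rfl fun j _ => ?_
      rw [Polynomial.finsetSum_coeff]
      refine Finset.sum_congr rfl fun i _ => ?_
      have h2 : Polynomial.C (g j) * Polynomial.X ^ (j : ℕ) *
          (Polynomial.C (z i) * Polynomial.X ^ (i : ℕ)) =
          Polynomial.C (g j * z i) * Polynomial.X ^ ((j : ℕ) + i) := by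
        rw [Polynomial.C_mul, pow_add]
        ring
      rw [h2, Polynomial.coeff_C_mul_X_pow]
    rw [h1, Polynomial.coeff_zero]
    by_cases ht : t < n + r
    · have h2 := congrFun hg ⟨t, ht⟩
      rw [Finset.sum_apply, Pi.zero_apply] at h2
      refine Eq.trans (Finset.sum_congr rfl fun j _ => ?_) h2
      rw [Pi.smul_apply, smul_eq_mul]
      unfold mulVec
      by_cases h : (j : ℕ) ≤ t ∧ t - (j : ℕ) < n + 1
      · rw [dif_pos h, aeval_X, Finset.sum_eq_single ⟨t - (j : ℕ), h.2⟩]
        · rw [if_pos]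
          change t = (j : ℕ) + (t - j)
          omega
        · intro i _ hi
          rw [if_neg]
          intro h3
          apply hi
          apply Fin.ext
          change (i : ℕ) = t - j
          omega
        · intro hcon
          exact absurd (Finset.mem_univ _) hcon
      · rw [dif_neg h, map_zero, mul_zero]
        refine Finset.sum_eq_zero fun i _ => ?_
        rw [if_neg]
        intro h3
        apply h
        have := i.2
        omega
    · refine Finset.sum_eq_zero fun j _ => Finset.sum_eq_zero fun i _ => ?_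
      rw [if_neg]
      have h3 := j.2
      have h4 := i.2
      omega
  have hZ : Z ≠ 0 := by
    obtain ⟨i, hi⟩ := hz
    intro h0
    apply hi
    have h1 : Z.coeff (i : ℕ) = z i := by
      simp only [Z, Polynomial.finsetSum_coeff, Polynomial.coeff_C_mul_X_pow]
      rw [Finset.sum_eq_single i]
      · rw [if_pos rfl]
      · intro i' _ hi'
        rw [if_neg]
        exact fun h => hi' (Fin.ext h.symm)
      · intro hcon
        exact absurd (Finset.mem_univ _) hcon
    rw [← h1, h0, Polynomial.coeff_zero]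
  have hP : P = 0 := (mul_eq_zero.1 hPZ).resolve_right hZ
  intro j
  have h1 : P.coeff (j : ℕ) = g j := by
    simp only [P, Polynomial.finsetSum_coeff, Polynomial.coeff_C_mul_X_pow]
    rw [Finset.sum_eq_single j]
    · rw [if_pos rfl]
    · intro i' _ hi'
      rw [if_neg]
      exact fun h => hi' (Fin.ext h.symm)
    · intro hcon
      exact absurd (Finset.mem_univ _) hcon
  rw [← h1, hP, Polynomial.coeff_zero]

lemma mulVec_hom (j : Fin r) (t : Fin (n + r)) :
    IsWeightedHomogeneous (fun _ : Fin (n + 1) => 1) (mulVec k n r j t) 1 := by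
  unfold mulVec
  split_ifs with h
  · exact isWeightedHomogeneous_X k _ _
  · exact isWeightedHomogeneous_zero k _ _

lemma mulVec_grd {Λ : Type} [AddCommGroup Λ] (a b e : Λ) (j : Fin r) (t : Fin (n + r)) :
    IsWeightedHomogeneous (fun i : Fin (n + 1) => a + (i : ℕ) • e) (mulVec k n r j t)
      (b + (t : ℕ) • e + (a - b - (j : ℕ) • e)) := by
  unfold mulVec
  split_ifs with h
  · have h1 := isWeightedHomogeneous_X k (fun i : Fin (n + 1) => a + (i : ℕ) • e)
      ⟨(t : ℕ) - j, h.2⟩
    have h2 : a + ((t : ℕ) - j) • e = b + (t : ℕ) • e + (a - b - (j : ℕ) • e) := by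
      have h3 : (t : ℕ) • e = (j : ℕ) • e + ((t : ℕ) - j) • e := by
        rw [← add_smul, Nat.add_sub_cancel' h.1]
      rw [h3]
      abel
    rw [← h2]
    exact h1
  · exact isWeightedHomogeneous_zero k _ _

end mul

/-- The quotients by translations along polynomial maps. -/
theorem translation_main (p : ℕ) [Fact p.Prime] (k : Type u) [Field k] [CharP k p] (Λ : Type)
    [AddCommGroup Λ] [Fintype Λ] [DecidableEq Λ] (r : ℕ) (h : Fin r → ℕ)
    (A : AddSubgroup (Fin r → k)) [Finite A] (n m : ℕ) (w : Fin n → ℕ) (l : Fin r → ℕ)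
    (v : Fin r → Fin m → MvPolynomial (Fin n) k)
    (ω : Fin n → Λ) (κ : Fin m → Λ) (β : Fin r → Λ)
    (hw : ∃ i, 0 < w i) (hl : ∀ j, 0 < l j)
    (hv : ∀ j t, IsWeightedHomogeneous w (v j t) (l j))
    (hω : ∀ j t, IsWeightedHomogeneous ω (v j t) (κ t + β j))
    (hV : ∀ (K : Type u) [Field K] [Algebra k K] (z : Fin n → K), (∃ i, 0 < w i ∧ z i ≠ 0) →
      LinearIndependent K (fun j t => aeval z (v j t)))
    (hA : IsStable A β) :
    IsVectorAction (translation v) ∧
    IsEquivariant (weightedHomogeneousSubmodule k (Sum.elim ω κ)) β (translation v) ∧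
    ∃ R : Subalgebra k (MvPolynomial (Fin n ⊕ Fin m) k),
      IsInvariantRing (weightedHomogeneousSubmodule k (Sum.elim ω κ)) (translation v)
        (fun j => p ^ h j) A R ∧ ResolvedVariety k R := by
  have hact : Pool.Agent.J6H48.MG.IsVAct (translation v) := Pool.Agent.J6H48.MG.isVAct_va v
  let _ := weightedGradedAlgebra k (Sum.elim ω κ)
  have hpg := Pool.Agent.Y177.Dg.pg_grd (weightedHomogeneousSubmodule k (Sum.elim ω κ))
  have hequ : IsEquivariant (weightedHomogeneousSubmodule k (Sum.elim ω κ)) β (translation v) :=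
    fun i b hb α => Pool.Agent.J6H48.MG.va_homog v ω κ hω i b hb α
  have hvE : ∀ j t, v j t ∈ Pool.Agent.H519R3.RE.EI (X : Fin n → MvPolynomial (Fin n) k) w (l j) :=
    fun j t => Pool.Agent.H519R3.RE.hom_mem_EI w (hv j t)
  refine ⟨isVectorAction hact, hequ, ?_⟩
  obtain ⟨R, hR⟩ := exists_ring (p := p) (weightedHomogeneousSubmodule k (Sum.elim ω κ)) hact h A
  refine ⟨R, hR, ?_⟩
  exact Pool.Agent.J6H48.MG.dia_main hpg β
    (Pool.Agent.J6H48.MG.rho_of_homV hpg β fun i b hb α => by
      rw [Pool.Agent.Y177.Dg.proj_eq_iff] at hb ⊢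
      exact hequ i b hb α)
    hact (Pool.Agent.J6H48.MG.triv_va v w l hv hV) p h
    (Pool.Agent.H519R3.RE.isFilt_EI _ w)
    (fun d b hb α => Pool.Agent.J6H48.MG.va_div v w l hvE d b hb α) hl
    (Pool.Agent.H519R3.RE.good_B w) (Pool.Agent.H519R3.RE.one_ne_bot w hw)
    (fun d c hc i => Pool.Agent.J6H48.MG.EI_stable hpg (Sum.elim ω κ) (fun i b => by
      rw [Pool.Agent.Y177.Dg.proj_eq_iff]
      exact mem_weightedHomogeneousSubmodule k (Sum.elim ω κ) i b) w d c hc i) A hA R
    fun b => by rw [mem_iff hact hR, Pool.Agent.Y177.Dg.proj_eq_iff]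

/-- The resolution of singularities. -/
theorem resolution (p : ℕ) [Fact p.Prime] (k : Type u) [Field k] [CharP k p] (Λ : Type)
    [AddCommGroup Λ] [Fintype Λ] [DecidableEq Λ] (r : ℕ) (h : Fin r → ℕ)
    (A : AddSubgroup (Fin r → k)) [Finite A] :
    (∀ (B : Type u) [CommRing B] [IsDomain B] [Algebra k B] [Algebra.Smooth k B]
      (𝒜 : Λ → Submodule k B) [GradedAlgebra 𝒜] (β : Fin r → Λ)
      (ρ : B →ₐ[k] MvPolynomial (Fin r) B), IsVectorAction ρ → IsEquivariant 𝒜 β ρ →
      IsStable A β →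
      ∀ (F : ℕ → Ideal B), RegularWeightedCentre k F → (∀ d, (F d).IsHomogeneous 𝒜) → F 1 ≠ ⊥ →
      ∀ l : Fin r → ℕ, (∀ j, 0 < l j) →
      (∀ d, ∀ b ∈ F d, ∀ α : Fin r →₀ ℕ, coeff α (ρ b) ∈ F (d + ∑ j, α j * l j)) →
      ∀ (ι : Type u) (Δ : ι → B) (e : ι → ℕ) (θ : ι → Fin r → B),
      IsLocallyTranslation ρ F l Δ e θ →
      ∀ R : Subalgebra k B, IsInvariantRing 𝒜 ρ (fun j => p ^ h j) A R → ResolvedVariety k R) ∧
    (∀ (n m : ℕ) (w : Fin n → ℕ) (l : Fin r → ℕ) (v : Fin r → Fin m → MvPolynomial (Fin n) k)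
      (ω : Fin n → Λ) (κ : Fin m → Λ) (β : Fin r → Λ), (∃ i, 0 < w i) → (∀ j, 0 < l j) →
      (∀ j t, IsWeightedHomogeneous w (v j t) (l j)) →
      (∀ j t, IsWeightedHomogeneous ω (v j t) (κ t + β j)) →
      (∀ (K : Type u) [Field K] [Algebra k K] (z : Fin n → K), (∃ i, 0 < w i ∧ z i ≠ 0) →
        LinearIndependent K (fun j t => aeval z (v j t))) →
      IsStable A β →
      IsVectorAction (translation v) ∧
      IsEquivariant (weightedHomogeneousSubmodule k (Sum.elim ω κ)) β (translation v) ∧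
      ∃ R : Subalgebra k (MvPolynomial (Fin n ⊕ Fin m) k),
        IsInvariantRing (weightedHomogeneousSubmodule k (Sum.elim ω κ)) (translation v)
          (fun j => p ^ h j) A R ∧ ResolvedVariety k R) ∧
    ∀ (n : ℕ) (a b e : Λ), IsStable A (fun j : Fin r => a - b - (j : ℕ) • e) →
      ∃ R : Subalgebra k (MvPolynomial (Fin (n + 1) ⊕ Fin (n + r)) k),
        IsInvariantRing (weightedHomogeneousSubmodule k
          (Sum.elim (fun i : Fin (n + 1) => a + (i : ℕ) • e)
            fun t : Fin (n + r) => b + (t : ℕ) • e))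
          (translation (mulVec k n r)) (fun j => p ^ h j) A R ∧ ResolvedVariety k R := by
  refine ⟨?_, ?_, ?_⟩
  · intro B _ _ _ _ 𝒜 _ β ρ hρ hequ hA F hF hhom hne l hl hdiv ι Δ e θ hT R hR
    have _ : CharP B p := charP_of_injective_algebraMap (algebraMap k B).injective p
    have hFi : Pool.Agent.H519R3.RS.IsFilt F := ⟨hF.zero, hF.anti, hF.mul⟩
    have hpg := Pool.Agent.Y177.Dg.pg_grd 𝒜
    have hact := isVAct hρ
    have hT' : Pool.Agent.J6H48.MG.Triv ρ F l Δ e θ :=
      ⟨hT.memΔ, hT.memθ, hT.le, hT.map, hT.gen⟩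
    exact Pool.Agent.J6H48.MG.dia_main hpg β
      (Pool.Agent.J6H48.MG.rho_of_homV hpg β fun i b hb α => by
        rw [Pool.Agent.Y177.Dg.proj_eq_iff] at hb ⊢
        exact hequ i b hb α)
      hact hT' p h hFi hdiv hl (Pool.Agent.H519R3.RS.good_of_centre hFi hF) hne
      (fun d c hc i => by
        rw [GradedAlgebra.proj_apply]
        exact hhom d i hc) A hA R
      fun b => by rw [mem_iff hact hR, Pool.Agent.Y177.Dg.proj_eq_iff]
  · intro n m w l v ω κ β hw hl hv hω hV hA
    exact translation_main p k Λ r h A n m w l v ω κ β hw hl hv hω hV hA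
  · intro n a b e hA
    exact (translation_main p k Λ r h A (n + 1) (n + r) (fun _ => 1) (fun _ => 1)
      (mulVec k n r) (fun i => a + (i : ℕ) • e) (fun t => b + (t : ℕ) • e)
      (fun j => a - b - (j : ℕ) • e) ⟨0, one_pos⟩ (fun _ => one_pos) mulVec_hom
      (mulVec_grd a b e) (fun K _ _ z hz => mulVec_indep K z (by
        obtain ⟨i, _, hi⟩ := hz
        exact ⟨i, hi⟩)) hA).2.2

/-- Let `k` be a field of characteristic `p`, let `H = (∏ j, α_(p ^ h j)) × A` be the finite
subgroup scheme of the vector group `𝔾_a ^ r` over `k` given by heights `h j` and a finite subgroup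
`A` of `k ^ r`, and let `D = Spec k[Λ]` be a finite diagonalizable group scheme acting on `𝔾_a ^ r`
through characters `β j`, such that `A` is stable under `D`.

(1) Let `𝔾_a ^ r ⋊ D` act on a smooth affine variety `Spec B` over `k`, and let `F` be a `D`-stable
regular weighted centre, such that the coefficients of `ρ b` of degree `α` are in
`F (d + ∑ j, α j * l j)` for `b` in `F d`, where `l j > 0`, and such that the action of `𝔾_a ^ r` on
the weighted blowup of `F` is locally a translation. Then `X = (Spec B) / (H ⋊ D)` has a resolution of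
singularities and all local rings of `X` admit local uniformization.

(2) Let the coordinates `X i` of `𝔸 ^ n` have weights `w i ≥ 0`, not all `0`, and let
`v j : 𝔸 ^ n → 𝔸 ^ m`, `j < r`, be polynomial maps which are weighted homogeneous of degrees
`l j > 0` and linearly independent at every point outside the subspace where the coordinates of
positive weight vanish. Let `D` act on `𝔸 ^ (n + m)` through weights `ω i`, `κ t` in `Λ` such that
`v j` is homogeneous of weight `β j`. Then the quotient of `𝔸 ^ (n + m)` by `H ⋊ D`, where `H` acts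
through `(X, Y) ↦ (X, Y + ∑ j, T_j * v j (X))`, has a resolution of singularities, and all its local
rings admit local uniformization.

(3) In particular, consider `𝔸 ^ (2 n + r + 1)` as the space of the pairs `(x, y)` of polynomials in
`u` of degrees at most `n` and less than `n + r`, and `𝔾_a ^ r` as the space of the polynomials
`t = ∑ j, T_j * u ^ j` of degree less than `r`. Then the quotient by `H ⋊ D`, where `H` acts through
`(x, y) ↦ (x, y + t * x)` and `D` acts through characters `a + i e` and `b + i e` on the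
coefficients of `u ^ i` of `x` and `y`, has a resolution of singularities, and all its local rings
admit local uniformization. -/
theorem result (p : ℕ) [Fact p.Prime] (k : Type) [Field k] [CharP k p] (Λ : Type)
    [AddCommGroup Λ] [Fintype Λ] [DecidableEq Λ] (r : ℕ) (h : Fin r → ℕ)
    (A : AddSubgroup (Fin r → k)) [Finite A] :
    (∀ (B : Type) [CommRing B] [IsDomain B] [Algebra k B] [Algebra.Smooth k B]
      (𝒜 : Λ → Submodule k B) [GradedAlgebra 𝒜] (β : Fin r → Λ)
      (ρ : B →ₐ[k] MvPolynomial (Fin r) B), IsVectorAction ρ → IsEquivariant 𝒜 β ρ →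
      IsStable A β →
      ∀ (F : ℕ → Ideal B), RegularWeightedCentre k F → (∀ d, (F d).IsHomogeneous 𝒜) → F 1 ≠ ⊥ →
      ∀ l : Fin r → ℕ, (∀ j, 0 < l j) →
      (∀ d, ∀ b ∈ F d, ∀ α : Fin r →₀ ℕ, coeff α (ρ b) ∈ F (d + ∑ j, α j * l j)) →
      ∀ (ι : Type) (Δ : ι → B) (e : ι → ℕ) (θ : ι → Fin r → B),
      IsLocallyTranslation ρ F l Δ e θ →
      ∀ R : Subalgebra k B, IsInvariantRing 𝒜 ρ (fun j => p ^ h j) A R →
        ResolvedVariety k R ∧ LocalRingsAdmitLU R) ∧
    (∀ (n m : ℕ) (w : Fin n → ℕ) (l : Fin r → ℕ) (v : Fin r → Fin m → MvPolynomial (Fin n) k)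
      (ω : Fin n → Λ) (κ : Fin m → Λ) (β : Fin r → Λ), (∃ i, 0 < w i) → (∀ j, 0 < l j) →
      (∀ j t, IsWeightedHomogeneous w (v j t) (l j)) →
      (∀ j t, IsWeightedHomogeneous ω (v j t) (κ t + β j)) →
      (∀ (K : Type) [Field K] [Algebra k K] (z : Fin n → K), (∃ i, 0 < w i ∧ z i ≠ 0) →
        LinearIndependent K (fun j t => aeval z (v j t))) →
      IsStable A β →
      IsVectorAction (translation v) ∧
      IsEquivariant (weightedHomogeneousSubmodule k (Sum.elim ω κ)) β (translation v) ∧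
      ∃ R : Subalgebra k (MvPolynomial (Fin n ⊕ Fin m) k),
        IsInvariantRing (weightedHomogeneousSubmodule k (Sum.elim ω κ)) (translation v)
          (fun j => p ^ h j) A R ∧ ResolvedVariety k R ∧ LocalRingsAdmitLU R) ∧
    ∀ (n : ℕ) (a b e : Λ), IsStable A (fun j : Fin r => a - b - (j : ℕ) • e) →
      ∃ R : Subalgebra k (MvPolynomial (Fin (n + 1) ⊕ Fin (n + r)) k),
        IsInvariantRing (weightedHomogeneousSubmodule k
          (Sum.elim (fun i : Fin (n + 1) => a + (i : ℕ) • e)
            fun t : Fin (n + r) => b + (t : ℕ) • e))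
          (translation (mulVec k n r)) (fun j => p ^ h j) A R ∧
          ResolvedVariety k R ∧ LocalRingsAdmitLU R := by
  obtain ⟨h1, h2, h3⟩ := resolution p k Λ r h A
  refine ⟨?_, ?_, ?_⟩
  · intro B _ _ _ _ 𝒜 _ β ρ hρ hequ hA F hF hhom hne l hl hdiv ι Δ e θ hT R hR
    have h4 := h1 B 𝒜 β ρ hρ hequ hA F hF hhom hne l hl hdiv ι Δ e θ hT R hR
    exact ⟨h4, fun Q _ S _ _ _ _ => Pool.Agent.H519R3.RS.admitsLU_of_res h4.2 Q S⟩
  · intro n m w l v ω κ β hw hl hv hω hV hA
    obtain ⟨h4, h5, R, h6, h7⟩ := h2 n m w l v ω κ β hw hl hv hω hV hA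
    exact ⟨h4, h5, R, h6, h7, fun Q _ S _ _ _ _ =>
      Pool.Agent.H519R3.RS.admitsLU_of_res h7.2 Q S⟩
  · intro n a b e hA
    obtain ⟨R, h6, h7⟩ := h3 n a b e hA
    exact ⟨R, h6, h7, fun Q _ S _ _ _ _ => Pool.Agent.H519R3.RS.admitsLU_of_res h7.2 Q S⟩

end Pool.Agent.Results.MP_3029eb_ag.VectorGroupQuotientsLU
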