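import Pool.Agent.H519R3.RS.LUS
import Pool.Agent.Results.MP_b525bf_ag.WreathQuotients

/-!
MP_3029eb_ag: local uniformization, at all valuations, of the local rings of the quotients of powers of
affine varieties of characteristic `p`, of any dimension, by the Sylow `p`-subgroups of the symmetric
groups, and by all permutation groups which are obtained from cyclic groups of order dividing
`p ^ 2 * m` by direct and wreath products.

It follows from the resolution of singularities MP_b525bf_ag.WreathQuotients of the starting files by
the valuative criterion of properness (`Pool.Agent.H519R3.RS.LUS` of the starting files).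
-/

set_option autoImplicit false

open AlgebraicGeometry CategoryTheory TensorProduct Pool.Agent.H920R2
open Pool.Agent.Results.MP_b525bf_ag.WreathQuotients (invariants HasSmoothBlowUp IsTower)

namespace Pool.Agent.Results.MP_3029eb_ag.WreathQuotientsLU

/-- Local uniformization of the local ring `R`: for every valuation of the field of fractions `K` of
`R`, with valuation ring `V`, which is centred on `R`, there is a finitely generated `R`-subalgebra
`A` of `K` with `A ⊆ V` whose localization at the centre of the valuation is regular. -/
def AdmitsLU (R : Type) [CommRing R] [IsLocalRing R] : Prop :=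
  ∀ (K : Type) [Field K] [Algebra R K] [IsFractionRing R K] (V : ValuationSubring K),
    (∀ r : R, algebraMap R K r ∈ V) →
    (∀ r : R, r ∈ IsLocalRing.maximalIdeal R ↔ V.valuation (algebraMap R K r) < 1) →
    ∃ A : Subalgebra R K, A.FG ∧ (∀ a : A, (a : K) ∈ V) ∧
      ∃ Q : Ideal A, ∃ (_ : Q.IsPrime), (∀ a : A, a ∈ Q ↔ V.valuation (a : K) < 1) ∧
        IsRegularLocalRing (Localization.AtPrime Q)

/-- Let `p` be a prime, `k` a field of characteristic `p` and `W = Spec A` an affine variety over
`k` which has a resolution of singularities by the blowing-up of an ideal, for instance a smooth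
affine variety. Let `P` be a group of permutations of `1, …, n`, and suppose that

* `P` is a Sylow `p`-subgroup of the symmetric group, or
* `P` is obtained by direct products and wreath products from cyclic permutation groups of orders
  dividing `p ^ 2 * m`, and `k` contains a primitive `m`-th root of unity.

Suppose that the power `W ^ n` is integral, for instance that `k` is algebraically closed. Then the
localizations `R` of the ring of the `P`-invariant functions on `W ^ n` at all prime ideals admit local
uniformization. -/
theorem result (p : ℕ) [Fact p.Prime] (k : Type) [Field k] [CharP k p] (A : Type)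
    [CommRing A] [IsDomain A] [Algebra k A] [Algebra.FiniteType k A] (hA : HasSmoothBlowUp k A) (n : ℕ)
    (hdom : IsAlgClosed k ∨ IsDomain (⨂[k] _ : Fin n, A)) (P : Subgroup (Equiv.Perm (Fin n)))
    (hP : (∃ S : Sylow p (Equiv.Perm (Fin n)), P = S) ∨
      ∃ (m : ℕ) (ω : k), 0 < m ∧ IsPrimitiveRoot ω m ∧ IsTower (p ^ 2 * m) (Fin n) P)
    (Q : Ideal (invariants k A P)) [Q.IsPrime] (R : Type) [CommRing R] [IsLocalRing R]
    [Algebra (invariants k A P) R] [IsLocalization.AtPrime R Q] : AdmitsLU R := by
  have hdomB : IsDomain (⨂[k] _ : Fin n, A) := by
    rcases hdom with h | h
    · exact isDomain_pi n fun _ => A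
    · exact h
  have h3 : HasResolution (X := Spec (CommRingCat.of (invariants k A P)))
      (Spec.map (CommRingCat.ofHom (algebraMap k (invariants k A P)))) :=
    (Pool.Agent.Results.MP_b525bf_ag.WreathQuotients.result p k A hA n hdom P hP).2
  exact Pool.Agent.H519R3.RS.admitsLU_of_res h3 Q R

end Pool.Agent.Results.MP_3029eb_ag.WreathQuotientsLU
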